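import Pool.Agent.Helper8.UL.Spec2

/-! Part INS of the swarm UL2: stacking one more vertex. -/

open Set

namespace Pool.Agent.Helper51.UL2.INS

open Pool.UL

theorem or1 (a b c d e : Prop) : ((a ∨ b ∨ c ∨ d) ∨ e ↔ (a ∨ e) ∨ b ∨ c ∨ d) := by tauto

theorem or2 (a b c d e : Prop) : ((a ∨ b ∨ c ∨ d) ∨ e ↔ a ∨ (b ∨ e) ∨ c ∨ d) := by tauto

theorem or3 (a b c d e : Prop) : ((a ∨ b ∨ c ∨ d) ∨ e ↔ a ∨ b ∨ (c ∨ e) ∨ d) := by tauto

theorem main : S_INS := by
  intro a b H F T h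
  induction h with
  | nil a b hab H F T hH hF hT =>
    intro p q z hpq hz hza hzb
    have hpq' : (p = a ∧ q = b) ∨ (p = b ∧ q = a) := by
      rcases hpq with h1 | h1
      · exact absurd h1 (hF _)
      · exact h1
    have n1 : Hang a z (∅ : Set ℕ) (∅ : Set (ℕ × ℕ)) (fun _ => 0) :=
      Hang.nil a z (Ne.symm hza) _ _ _ (fun v => id) (fun x => id) (fun v => rfl)
    have n2 : Hang z b (∅ : Set ℕ) (∅ : Set (ℕ × ℕ)) (fun _ => 0) :=
      Hang.nil z b hzb _ _ _ (fun v => id) (fun x => id) (fun v => rfl)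
    have n3 : Hang a b (∅ : Set ℕ) (∅ : Set (ℕ × ℕ)) (fun _ => 0) :=
      Hang.nil a b hab _ _ _ (fun v => id) (fun x => id) (fun v => rfl)
    refine ⟨fun v => 0 + 0 + 0 + ind3 a b z v, Hang.cons a b z hab (Ne.symm hza) hzb ∅ ∅ ∅ _ ∅ ∅ ∅ _
      _ _ _ _ n1 n2 n3 id id id (fun v => False.elim) (fun v => False.elim) (fun v => False.elim)
      ?_ ?_ (fun v => rfl)⟩
    · intro v
      simp only [mem_ofPred_eq, mem_empty_iff_false, false_or, hH]
    · intro x
      simp only [mem_ofPred_eq, mem_empty_iff_false, false_or, hF]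
      rcases hpq' with ⟨rfl, rfl⟩ | ⟨rfl, rfl⟩ <;> tauto
  | cons a b w hab haw hwb H₁ H₂ H₃ H F₁ F₂ F₃ F T₁ T₂ T₃ T h₁ h₂ h₃ hb ha hw h12 h13 h23 hH hF hT
      ih₁ ih₂ ih₃ =>
    intro p q z hpq hz hza hzb
    have hz' : ¬ (z ∈ H₁ ∨ z ∈ H₂ ∨ z ∈ H₃ ∨ z = w) := fun hh => hz ((hH z).2 hh)
    push Not at hz'
    obtain ⟨hz1, hz2, hz3, hzw⟩ := hz'
    have hcase : ((p, q) ∈ F₁ ∨ (p = a ∧ q = w) ∨ (p = w ∧ q = a)) ∨
        ((p, q) ∈ F₂ ∨ (p = w ∧ q = b) ∨ (p = b ∧ q = w)) ∨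
        ((p, q) ∈ F₃ ∨ (p = a ∧ q = b) ∨ (p = b ∧ q = a)) := by
      rw [hF] at hpq
      simp only [Prod.mk.injEq] at hpq
      rcases hpq with (h | h | h | h | h | h | h) | h | h
      · exact Or.inl (Or.inl h)
      · exact Or.inr (Or.inl (Or.inl h))
      · exact Or.inr (Or.inr (Or.inl h))
      · exact Or.inl (Or.inr (Or.inl h))
      · exact Or.inl (Or.inr (Or.inr h))
      · exact Or.inr (Or.inl (Or.inr (Or.inl h)))
      · exact Or.inr (Or.inl (Or.inr (Or.inr h)))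
      · exact Or.inr (Or.inr (Or.inr (Or.inl h)))
      · exact Or.inr (Or.inr (Or.inr (Or.inr h)))
    rcases hcase with hc | hc | hc
    · obtain ⟨T', h'⟩ := ih₁ p q z hc hz1 hza hzw
      refine ⟨fun v => T' v + T₂ v + T₃ v + ind3 a b w v, Hang.cons a b w hab haw hwb _ _ _ _ _ _ _ _
        _ _ _ _ h' h₂ h₃ ?_ ha hw ?_ ?_ h23 ?_ ?_ (fun v => rfl)⟩
      · rintro (hh | hh)
        · exact hb hh
        · exact hzb hh.symm
      · rintro v (hh | hh)
        · exact h12 v hh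
        · rw [hh]
          exact hz2
      · rintro v (hh | hh)
        · exact h13 v hh
        · rw [hh]
          exact hz3
      · intro v
        simp only [mem_ofPred_eq, hH]
        exact or1 _ _ _ _ _
      · intro x
        simp only [mem_ofPred_eq, hF]
        exact or1 _ _ _ _ _
    · obtain ⟨T', h'⟩ := ih₂ p q z hc hz2 hzw hzb
      refine ⟨fun v => T₁ v + T' v + T₃ v + ind3 a b w v, Hang.cons a b w hab haw hwb _ _ _ _ _ _ _ _
        _ _ _ _ h₁ h' h₃ hb ?_ hw ?_ h13 ?_ ?_ ?_ (fun v => rfl)⟩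
      · rintro (hh | hh)
        · exact ha hh
        · exact hza hh.symm
      · rintro v hv (hh | hh)
        · exact h12 v hv hh
        · rw [hh] at hv
          exact hz1 hv
      · rintro v (hh | hh)
        · exact h23 v hh
        · rw [hh]
          exact hz3
      · intro v
        simp only [mem_ofPred_eq, hH]
        exact or2 _ _ _ _ _
      · intro x
        simp only [mem_ofPred_eq, hF]
        exact or2 _ _ _ _ _
    · obtain ⟨T', h'⟩ := ih₃ p q z hc hz3 hza hzb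
      refine ⟨fun v => T₁ v + T₂ v + T' v + ind3 a b w v, Hang.cons a b w hab haw hwb _ _ _ _ _ _ _ _
        _ _ _ _ h₁ h₂ h' hb ha ?_ h12 ?_ ?_ ?_ ?_ (fun v => rfl)⟩
      · rintro (hh | hh)
        · exact hw hh
        · exact hzw hh.symm
      · rintro v hv (hh | hh)
        · exact h13 v hv hh
        · rw [hh] at hv
          exact hz1 hv
      · rintro v hv (hh | hh)
        · exact h23 v hv hh
        · rw [hh] at hv
          exact hz2 hv
      · intro v
        simp only [mem_ofPred_eq, hH]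
        exact or3 _ _ _ _ _
      · intro x
        simp only [mem_ofPred_eq, hF]
        exact or3 _ _ _ _ _

end Pool.Agent.Helper51.UL2.INS
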